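import Pool.Agent.W793.SCH.Stm2

/-! The walk on the torus before it closes up. -/

set_option autoImplicit false

namespace Pool.Agent.W585.SCH

open Pool.Agent.W793.SCH

theorem Pl_apply {d l : ℕ} [NeZero l] (hd : 1 ≤ d) (f : St d l → ℝ) (x : St d l) :
    Pl f x = 1 / 2 * f x + 1 / (4 * d : ℝ) * ∑ i, (f (x + eT i) + f (x - eT i)) := by
  have h1 : lap f x = 2 * d * f x - ∑ i, (f (x + eT i) + f (x - eT i)) := by
    have h2 : lap f x = ∑ i, Dm i (Dp i f) x := by
      unfold lap
      rw [Finset.sum_apply]
    have h3 : ∀ i : Fin d, Dm i (Dp i f) x = 2 * f x - (f (x + eT i) + f (x - eT i)) := by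
      intro i
      simp only [Dm, Dp, sub_add_cancel]
      ring
    rw [h2, Finset.sum_congr rfl fun i _ => h3 i, Finset.sum_sub_distrib, Finset.sum_const,
      Finset.card_univ, Fintype.card_fin, nsmul_eq_mul]
    ring
  have hd0 : (d : ℝ) ≠ 0 := by
    have : (1 : ℝ) ≤ d := by exact_mod_cast hd
    positivity
  have h4 : Pl f x = f x - 1 / (4 * d : ℝ) * lap f x := by
    unfold Pl
    rw [Pi.sub_apply, Pi.smul_apply, smul_eq_mul]
  rw [h4, h1]
  field_simp
  ring

theorem t_B1 : S_B1 := by
  intro d l k _ hd
  induction k with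
  | zero =>
    intro z hz
    have h1 : (fun i => (z i : ZMod l)) = (0 : St d l) ↔ z = 0 := by
      constructor
      · intro h
        funext i
        have h2 : ((z i : ℤ) : ZMod l) = 0 := congrFun h i
        rw [ZMod.intCast_zmod_eq_zero_iff_dvd] at h2
        apply Int.eq_zero_of_abs_lt_dvd h2
        have := hz i
        push_cast at this
        linarith
      · rintro rfl
        funext i
        simp
    change (if (fun i => (z i : ZMod l)) = (0 : St d l) then (1 : ℝ) else 0) =
      if z = 0 then 1 else 0
    by_cases h : z = 0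
    · rw [if_pos h, if_pos (h1.2 h)]
    · rw [if_neg h, if_neg (fun h' => h (h1.1 h'))]
  | succ k ih =>
    intro z hz
    have hz0 : ∀ i, |z i| + k < l := fun i => by
      have := hz i
      push_cast at this
      linarith
    have habs : ∀ i j, |(Pi.single i 1 : Fin d → ℤ) j| ≤ 1 := by
      intro i j
      by_cases h : j = i
      · rw [h, Pi.single_eq_same]; simp
      · rw [Pi.single_eq_of_ne h]; simp
    have hzp : ∀ i j, |(z + Pi.single i 1 : Fin d → ℤ) j| + k < l := by
      intro i j
      have h1 := hz j
      have h2 := abs_add_le (z j) ((Pi.single i 1 : Fin d → ℤ) j)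
      have h3 := habs i j
      rw [Pi.add_apply]
      push_cast at h1
      linarith
    have hzm : ∀ i j, |(z - Pi.single i 1 : Fin d → ℤ) j| + k < l := by
      intro i j
      have h1 := hz j
      have h2 := abs_sub (z j) ((Pi.single i 1 : Fin d → ℤ) j)
      have h3 := habs i j
      rw [Pi.sub_apply]
      push_cast at h1
      linarith
    have hcp : ∀ i, (fun j => (z j : ZMod l)) + (eT i : St d l) =
        fun j => (((z + Pi.single i 1 : Fin d → ℤ) j : ℤ) : ZMod l) := by
      intro i
      funext j
      rw [Pi.add_apply, Pi.add_apply, Int.cast_add, eT]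
      congr 1
      by_cases h : j = i
      · rw [h, Pi.single_eq_same, Pi.single_eq_same, Int.cast_one]
      · rw [Pi.single_eq_of_ne h, Pi.single_eq_of_ne h, Int.cast_zero]
    have hcm : ∀ i, (fun j => (z j : ZMod l)) - (eT i : St d l) =
        fun j => (((z - Pi.single i 1 : Fin d → ℤ) j : ℤ) : ZMod l) := by
      intro i
      funext j
      rw [Pi.sub_apply, Pi.sub_apply, Int.cast_sub, eT]
      congr 1
      by_cases h : j = i
      · rw [h, Pi.single_eq_same, Pi.single_eq_same, Int.cast_one]
      · rw [Pi.single_eq_of_ne h, Pi.single_eq_of_ne h, Int.cast_zero]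
    have hstep : Plk (k + 1) (fun x : St d l => if x = 0 then (1 : ℝ) else 0) =
        Pl (Plk k (fun x : St d l => if x = 0 then (1 : ℝ) else 0)) := by
      unfold Plk
      rw [Function.iterate_succ_apply']
    rw [hstep, Pl_apply hd, ih z hz0]
    change _ = 1 / 2 * pk d k z + 1 / (4 * d : ℝ) *
      ∑ i, (pk d k (z + Pi.single i 1) + pk d k (z - Pi.single i 1))
    congr 2
    refine Finset.sum_congr rfl fun i _ => ?_
    rw [hcp i, hcm i, ih _ (hzp i), ih _ (hzm i)]

end Pool.Agent.W585.SCH
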